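import Mathlib

set_option autoImplicit false

/-!
# The sequence game with five letters: the core of Player 1's strategy

Histories are infinite sequences `w : ℕ → ℕ`, the most recent symbol first; the symbols before the
start of the game are dummy symbols, all different.
-/

namespace Pool.Agent.Helper2.SeqGame

/-- put a new most recent symbol in front of a history -/
def push (b : ℕ) (w : ℕ → ℕ) : ℕ → ℕ
  | 0 => b
  | n + 1 => w n

@[simp] theorem push_zero (b : ℕ) (w : ℕ → ℕ) : push b w 0 = b := rfl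
@[simp] theorem push_succ (b : ℕ) (w : ℕ → ℕ) (n : ℕ) : push b w (n + 1) = w n := rfl

/-- length (at most `p`) of the run of positions at which the history agrees with its shift by
`p` -/
noncomputable def run (p : ℕ) (w : ℕ → ℕ) : ℕ := by
  classical
  exact Nat.findGreatest (fun m => ∀ i < m, w i = w (i + p)) p

theorem run_le (p : ℕ) (w : ℕ → ℕ) : run p w ≤ p := by
  classical
  exact Nat.findGreatest_le p

theorem le_run {p m : ℕ} {w : ℕ → ℕ} (hm : m ≤ p) (h : ∀ i < m, w i = w (i + p)) :
    m ≤ run p w := by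
  classical
  exact Nat.le_findGreatest hm h

theorem run_spec (p : ℕ) (w : ℕ → ℕ) : ∀ i < run p w, w i = w (i + p) := by
  classical
  have h := @Nat.findGreatest_spec 0 (fun m => ∀ i < m, w i = w (i + p)) _ p (Nat.zero_le p)
    (by intro i hi; omega)
  exact h

/-- the weight of a run: `(2/3) ^ r` when Player 1 still has to take part in the run `r` times -/
noncomputable def e (p : ℕ) (w : ℕ → ℕ) : ℝ := (2 / 3 : ℝ) ^ ((p - run p w) / 2)

/-- the excess of the weight over that of an empty run -/
noncomputable def d (p : ℕ) (w : ℕ → ℕ) : ℝ := e p w - (2 / 3 : ℝ) ^ (p / 2)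

theorem pow_anti {a b : ℕ} (h : a ≤ b) : (2 / 3 : ℝ) ^ b ≤ (2 / 3 : ℝ) ^ a :=
  pow_le_pow_of_le_one (by norm_num) (by norm_num) h

theorem d_nonneg (p : ℕ) (w : ℕ → ℕ) : 0 ≤ d p w := by
  unfold d e
  have := pow_anti (show (p - run p w) / 2 ≤ p / 2 by omega)
  linarith

theorem run_push_ne {p b : ℕ} {u : ℕ → ℕ} (hp : 1 ≤ p) (h : b ≠ u (p - 1)) :
    run p (push b u) = 0 := by
  by_contra hne
  have h1 := run_spec p (push b u) 0 (by omega)
  obtain ⟨q, rfl⟩ : ∃ q, p = q + 1 := ⟨p - 1, by omega⟩
  simp at h1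
  simp at h
  exact h h1

/-- the run ends if the new symbol does not continue it -/
theorem d_ne {p b : ℕ} {u : ℕ → ℕ} (hp : 1 ≤ p) (h : b ≠ u (p - 1)) : d p (push b u) = 0 := by
  unfold d e
  rw [run_push_ne hp h]
  simp

/-- for odd `p`, a run in which only the last symbol takes part has no excess -/
theorem d_odd {p b : ℕ} {u : ℕ → ℕ} (hp : p % 2 = 1) (h : u 0 ≠ u p) : d p (push b u) = 0 := by
  have h1 : run p (push b u) ≤ 1 := by
    by_contra hne
    have h1 := run_spec p (push b u) 1 (by omega)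
    rw [show 1 + p = p + 1 by ring] at h1
    exact h h1
  unfold d e
  rw [show (p - run p (push b u)) / 2 = p / 2 by omega]
  simp

/-- one round multiplies the weight of a run by at most `3 / 2` -/
theorem d_round {p a b : ℕ} {w : ℕ → ℕ} (hw : run p w + 2 ≤ p) :
    d p (push b (push a w)) ≤ 3 / 2 * d p w + 1 / 2 * (2 / 3 : ℝ) ^ (p / 2) := by
  have h1 : run p (push b (push a w)) ≤ run p w + 2 := by
    by_contra hne
    have h2 : run p w + 1 ≤ run p w := by
      apply le_run (by omega)
      intro i hi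
      have h3 := run_spec p (push b (push a w)) (i + 2) (by omega)
      rw [show i + 2 + p = (i + p) + 2 by ring] at h3
      exact h3
    omega
  have h2 : e p (push b (push a w)) ≤ 3 / 2 * e p w := by
    unfold e
    obtain ⟨q, hq⟩ : ∃ q, (p - run p w) / 2 = q + 1 := ⟨(p - run p w) / 2 - 1, by omega⟩
    have h3 := pow_anti (show q ≤ (p - run p (push b (push a w))) / 2 by omega)
    rw [hq, pow_succ]
    linarith
  unfold d
  linarith

/-- the total excess over the periods `8 ≤ p < 2 n + 9` -/
noncomputable def S (n : ℕ) (w : ℕ → ℕ) : ℝ := ∑ p ∈ Finset.Ico 8 (2 * n + 9), d p w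

theorem S_zero (w : ℕ → ℕ) : S 0 w = d 8 w := by
  unfold S
  rw [show 2 * 0 + 9 = 8 + 1 by norm_num, Finset.sum_Ico_succ_top (by norm_num)]
  simp

theorem S_succ (n : ℕ) (w : ℕ → ℕ) :
    S (n + 1) w = S n w + (d (2 * n + 9) w + d (2 * n + 10) w) := by
  unfold S
  rw [show 2 * (n + 1) + 9 = 2 * n + 9 + 1 + 1 by ring,
    Finset.sum_Ico_succ_top (by omega), Finset.sum_Ico_succ_top (by omega)]
  ring

theorem S_mono {n m : ℕ} (h : n ≤ m) (w : ℕ → ℕ) : S n w ≤ S m w := by
  unfold S
  apply Finset.sum_le_sum_of_subset_of_nonneg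
  · intro p hp
    simp only [Finset.mem_Ico] at hp ⊢
    omega
  · intro p _ _
    exact d_nonneg p w

/-- the pair of periods `p`, `p + 1` (`p` odd) for one letter -/
theorem pair_one {p a b : ℕ} {w : ℕ → ℕ} (hp : p % 2 = 1) (hab : b ≠ a)
    (h1 : run p w + 2 ≤ p) (h2 : run (p + 1) w + 2 ≤ p + 1) :
    d p (push b (push a w)) + d (p + 1) (push b (push a w)) ≤
      3 / 2 * (d p w + d (p + 1) w) + 1 / 2 * (2 / 3 : ℝ) ^ (p / 2) := by
  have n1 := d_nonneg p w
  have n2 := d_nonneg (p + 1) w
  have n3 : (0:ℝ) ≤ (2 / 3 : ℝ) ^ (p / 2) := by positivity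
  by_cases h : a = push a w p
  · have e2 : d (p + 1) (push b (push a w)) = 0 := by
      apply d_ne (by omega)
      rw [Nat.add_sub_cancel, ← h]
      exact hab
    have e1 := d_round (a := a) (b := b) h1
    linarith
  · have e1 : d p (push b (push a w)) = 0 := d_odd hp h
    have e2 := d_round (a := a) (b := b) h2
    have e3 := pow_anti (show p / 2 ≤ (p + 1) / 2 by omega)
    linarith

/-- one period for two different letters -/
theorem single_two {p a b b' : ℕ} {w : ℕ → ℕ} (hp : 1 ≤ p) (hbb : b ≠ b')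
    (h1 : run p w + 2 ≤ p) :
    d p (push b (push a w)) + d p (push b' (push a w)) ≤
      3 / 2 * d p w + 1 / 2 * (2 / 3 : ℝ) ^ (p / 2) := by
  by_cases h : b = push a w (p - 1)
  · have e2 : d p (push b' (push a w)) = 0 := by
      apply d_ne hp
      rw [← h]
      exact hbb.symm
    have e1 := d_round (a := a) (b := b) h1
    linarith
  · have e2 : d p (push b (push a w)) = 0 := d_ne hp h
    have e1 := d_round (a := a) (b := b') h1
    linarith

/-- the pair of periods `p`, `p + 1` (`p` odd) for two different letters -/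
theorem pair_two {p a b b' : ℕ} {w : ℕ → ℕ} (hp : p % 2 = 1) (hab : b ≠ a) (hab' : b' ≠ a)
    (hbb : b ≠ b') (h1 : run p w + 2 ≤ p) (h2 : run (p + 1) w + 2 ≤ p + 1) :
    (d p (push b (push a w)) + d (p + 1) (push b (push a w))) +
      (d p (push b' (push a w)) + d (p + 1) (push b' (push a w))) ≤
      3 / 2 * (d p w + d (p + 1) w) + 1 / 2 * (2 / 3 : ℝ) ^ (p / 2) := by
  have n1 := d_nonneg p w
  have n2 := d_nonneg (p + 1) w
  have n3 : (0:ℝ) ≤ (2 / 3 : ℝ) ^ (p / 2) := by positivity
  by_cases h : a = push a w p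
  · have e2 : d (p + 1) (push b (push a w)) = 0 := by
      apply d_ne (by omega)
      rw [Nat.add_sub_cancel, ← h]
      exact hab
    have e3 : d (p + 1) (push b' (push a w)) = 0 := by
      apply d_ne (by omega)
      rw [Nat.add_sub_cancel, ← h]
      exact hab'
    have e1 := single_two (a := a) (b := b) (b' := b') (by omega) hbb h1
    linarith
  · have e1 : d p (push b (push a w)) = 0 := d_odd hp h
    have e4 : d p (push b' (push a w)) = 0 := d_odd hp h
    have e2 := single_two (a := a) (b := b) (b' := b') (by omega) hbb h2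
    have e3 := pow_anti (show p / 2 ≤ (p + 1) / 2 by omega)
    linarith

/-- the periods up to `2 n + 8` for two different letters -/
theorem S_two {a b b' : ℕ} {w : ℕ → ℕ} (hab : b ≠ a) (hab' : b' ≠ a) (hbb : b ≠ b')
    (hw : ∀ p, 8 ≤ p → run p w + 2 ≤ p) (n : ℕ) :
    S n (push b (push a w)) + S n (push b' (push a w)) ≤
      3 / 2 * S n w + 32 / 81 - 24 / 81 * (2 / 3 : ℝ) ^ n := by
  induction n with
  | zero =>
    rw [S_zero, S_zero, S_zero]
    have := single_two (p := 8) (a := a) (b := b) (b' := b') (by omega) hbb (hw 8 le_rfl)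
    norm_num at this ⊢
    linarith
  | succ n ih =>
    rw [S_succ, S_succ, S_succ]
    have := pair_two (p := 2 * n + 9) (a := a) (b := b) (b' := b') (by omega) hab hab' hbb
      (hw _ (by omega)) (hw _ (by omega))
    rw [show (2 * n + 9) / 2 = n + 4 by omega, pow_add] at this
    rw [pow_succ]
    norm_num at this ⊢
    linarith

/-- the periods up to `2 n + 8` for one letter -/
theorem S_one {a b : ℕ} {w : ℕ → ℕ} (hab : b ≠ a)
    (hw : ∀ p, 8 ≤ p → run p w + 2 ≤ p) (n : ℕ) :
    S n (push b (push a w)) ≤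
      3 / 2 * S n w + 32 / 81 - 24 / 81 * (2 / 3 : ℝ) ^ n := by
  induction n with
  | zero =>
    rw [S_zero, S_zero]
    have := d_round (p := 8) (a := a) (b := b) (hw 8 le_rfl)
    norm_num at this ⊢
    linarith
  | succ n ih =>
    rw [S_succ, S_succ]
    have := pair_one (p := 2 * n + 9) (a := a) (b := b) (by omega) hab
      (hw _ (by omega)) (hw _ (by omega))
    rw [show (2 * n + 9) / 2 = n + 4 by omega, pow_add] at this
    rw [pow_succ]
    norm_num at this ⊢
    linarith

/-- a run that the present move of Player 1 could complete has a large excess -/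
theorem d_big {p : ℕ} {w : ℕ → ℕ} (h : p ≤ run p w + 3) :
    2 / 3 - (2 / 3 : ℝ) ^ (p / 2) ≤ d p w := by
  unfold d e
  have := pow_anti (show (p - run p w) / 2 ≤ 1 by omega)
  rw [pow_one] at this
  linarith

/-- the pair of periods `2 j + 9`, `2 j + 10` when one of the two runs could have been completed
but was not -/
theorem pair_exc {j p a b : ℕ} {w : ℕ → ℕ} (hp : p = 2 * j + 9 ∨ p = 2 * j + 10) (hab : b ≠ a)
    (hw : ∀ p, 8 ≤ p → run p w + 2 ≤ p) (hbp : b ≠ push a w (p - 1)) (hap : a = push a w p)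
    (hr : p ≤ run p w + 3) :
    d (2 * j + 9) (push b (push a w)) + d (2 * j + 10) (push b (push a w)) ≤
      3 / 2 * (d (2 * j + 9) w + d (2 * j + 10) w) - 1 + 24 / 81 * (2 / 3 : ℝ) ^ j := by
  have n1 := d_nonneg (2 * j + 9) w
  have n2 := d_nonneg (2 * j + 10) w
  have n3 : (0:ℝ) ≤ (2 / 3 : ℝ) ^ j := by positivity
  have hbig := d_big hr
  rcases hp with rfl | rfl
  · have e1 : d (2 * j + 9) (push b (push a w)) = 0 := d_ne (by omega) hbp
    have e2 : d (2 * j + 10) (push b (push a w)) = 0 := by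
      apply d_ne (by omega)
      rw [show 2 * j + 10 - 1 = 2 * j + 9 by omega, ← hap]
      exact hab
    rw [show (2 * j + 9) / 2 = j + 4 by omega, pow_add] at hbig
    norm_num at hbig ⊢
    linarith
  · have e1 : d (2 * j + 10) (push b (push a w)) = 0 := d_ne (by omega) hbp
    have e2 := d_round (p := 2 * j + 9) (a := a) (b := b) (hw _ (by omega))
    rw [show (2 * j + 10) / 2 = j + 5 by omega, pow_add] at hbig
    rw [show (2 * j + 9) / 2 = j + 4 by omega, pow_add] at e2
    norm_num at hbig e2 ⊢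
    linarith

/-- the periods up to `2 n + 8` when the run of period `p` could have been completed but was
not -/
theorem S_exc {p a b : ℕ} {w : ℕ → ℕ} (h8 : 8 ≤ p) (hab : b ≠ a)
    (hw : ∀ p, 8 ≤ p → run p w + 2 ≤ p) (hbp : b ≠ push a w (p - 1)) (hap : a = push a w p)
    (hr : p ≤ run p w + 3) (n : ℕ) (hn : p < 2 * n + 9) :
    S n (push b (push a w)) ≤
      3 / 2 * S n w - 1 + 48 / 81 - 24 / 81 * (2 / 3 : ℝ) ^ n := by
  induction n with
  | zero =>
    have hp : p = 8 := by omega
    subst hp
    rw [S_zero, S_zero]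
    have e1 : d 8 (push b (push a w)) = 0 := d_ne (by omega) hbp
    have hbig := d_big hr
    norm_num at hbig ⊢
    linarith
  | succ n ih =>
    rw [S_succ, S_succ]
    rcases Nat.lt_or_ge p (2 * n + 9) with h | h
    · have h1 := ih h
      have := pair_one (p := 2 * n + 9) (a := a) (b := b) (by omega) hab
        (hw _ (by omega)) (hw _ (by omega))
      rw [show (2 * n + 9) / 2 = n + 4 by omega, pow_add] at this
      rw [pow_succ]
      norm_num at this ⊢
      linarith
    · have h1 := S_one (a := a) (b := b) hab hw n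
      have h2 := pair_exc (j := n) (p := p) (by omega) hab hw hbp hap hr
      have h3 : (2 / 3 : ℝ) ^ n ≤ 1 := pow_le_one₀ (by norm_num) (by norm_num)
      rw [pow_succ]
      norm_num at h1 h2 ⊢
      linarith

/-- no two different runs of periods at least `8` can be ready for completion -/
theorem not_two {p q : ℕ} {w : ℕ → ℕ} (hp : 8 ≤ p) (hq : 8 ≤ q) (hpq : p ≠ q)
    (hrp : p ≤ run p w + 3) (hrq : q ≤ run q w + 3) (hS : ∀ n, S n w < 65 / 81) : False := by
  have h1 := d_big hrp
  have h2 := d_big hrq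
  have h3 := pow_anti (show 4 ≤ p / 2 by omega)
  have h4 := pow_anti (show 4 ≤ q / 2 by omega)
  have h5 : d p w + d q w ≤ S (p + q) w := by
    have e1 : ∑ r ∈ ({p, q} : Finset ℕ), d r w = d p w + d q w := Finset.sum_pair hpq
    rw [← e1]
    unfold S
    apply Finset.sum_le_sum_of_subset_of_nonneg
    · intro r hr
      simp only [Finset.mem_insert, Finset.mem_singleton] at hr
      simp only [Finset.mem_Ico]
      omega
    · intro r _ _
      exact d_nonneg r w
  have h6 := hS (p + q)
  norm_num at h3 h4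
  linarith

/-- The invariant of Player 1's strategy. It speaks about a history `w` whose most recent symbol
`w 0` was played by Player 1. -/
structure Inv (w : ℕ → ℕ) : Prop where
  /-- no two equal symbols in a row end here -/
  r1 : w 0 ≠ w 1
  /-- Player 2 cannot complete a square of a word of length at least `2` -/
  nc : ∀ p, 2 ≤ p → ∃ i < p - 1, w i ≠ w (i + p)
  x6 : ¬ (w 0 = w 6 ∧ w 1 = w 7 ∧ w 2 = w 8 ∧ w 2 = w 5)
  x7a : ¬ (w 0 = w 7 ∧ w 1 = w 8 ∧ w 2 = w 9 ∧ w 3 = w 10 ∧ w 2 = w 6 ∧ w 5 ≠ w 1)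
  x7b : ¬ (w 0 = w 7 ∧ w 0 = w 4 ∧ w 1 = w 8 ∧ w 2 = w 9 ∧ w 3 = w 10 ∧ w 3 = w 6)
  x7c : ¬ (w 0 = w 4 ∧ w 0 = w 7 ∧ w 1 = w 8 ∧ w 2 = w 6)
  /-- two rules that Player 1 has followed one round earlier -/
  o2 : w 2 ≠ w 4
  o3 : ¬ (w 2 = w 5 ∧ w 3 = w 6)
  /-- the long runs are under control -/
  pot : ∀ n, S n w < 65 / 81

end Pool.Agent.Helper2.SeqGame
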