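import Mathlib

set_option autoImplicit false

/-!
# The sequence game

Symbols are `Fin c`; the sequence produced is `x 0, x 1, x 2, ...`. Player 1 chooses the symbols
with even index and Player 2 those with odd index.
-/

namespace Pool.Agent.Helper2.SeqGame

/-- The sequence `x` contains a repetition of total length at least `3`: for some `k ≥ 2` and
`d ≥ 1` with `k * d ≥ 3`, the `k` consecutive blocks of length `d` that start at place `l` are
identical (the block with number `j < k` equals the first one). -/
def HasRep {c : ℕ} (x : ℕ → Fin c) : Prop :=
  ∃ l k d : ℕ, 2 ≤ k ∧ 1 ≤ d ∧ 3 ≤ k * d ∧ ∀ j < k, ∀ i < d, x (l + j * d + i) = x (l + i)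

/-- Player 1 has a strategy in the `c`-ary sequence game: a function `σ` of the list of all
earlier symbols such that every sequence `x` in which all symbols with even index are chosen by
`σ` (the others being arbitrary) contains no repetition of total length at least `3`. -/
def PlayerOneWins (c : ℕ) : Prop :=
  ∃ σ : List (Fin c) → Fin c, ∀ x : ℕ → Fin c,
    (∀ n, x (2 * n) = σ ((List.range (2 * n)).map x)) → ¬ HasRep x

end Pool.Agent.Helper2.SeqGame
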