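import Mathlib
import Pool.Agent.Helper2.SeqGame.Core

set_option autoImplicit false

namespace Pool.Agent.Helper2.SeqGame

/-- the letter `b` is excluded by one of the rules about periods `3` to `7` -/
def Ex (a b : ℕ) (w : ℕ → ℕ) : Prop :=
  (b = w 1 ∧ a = w 2) ∨
  (b = w 2 ∧ a = w 3 ∧ w 0 = w 4) ∨
  (b = w 3 ∧ a = w 4 ∧ w 0 = w 5 ∧ w 1 = w 6) ∨
  (b = w 4 ∧ a = w 5 ∧ w 0 = w 6 ∧ w 1 = w 7 ∧ w 2 = w 8) ∨
  (b = w 4 ∧ a = w 5 ∧ w 0 = w 6 ∧ w 0 = w 3) ∨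
  (b = w 5 ∧ a = w 6 ∧ w 0 = w 7 ∧ w 1 = w 8 ∧ w 2 = w 9 ∧ w 3 = w 10) ∨
  (b = w 5 ∧ a = w 6 ∧ w 0 = w 7 ∧ w 1 = w 8 ∧ w 0 = w 4 ∧ w 3 ≠ a) ∨
  (b = w 5 ∧ b = w 2 ∧ a = w 6 ∧ w 0 = w 7 ∧ w 1 = w 8 ∧ w 1 = w 4) ∨
  (b = w 2 ∧ b = w 5 ∧ a = w 6 ∧ w 0 = w 4)

set_option maxHeartbeats 4000000 in
/-- at most one letter besides the last two is excluded -/
theorem ex_unique {w : ℕ → ℕ} (hw : Inv w) {a b t : ℕ} (hb : b ≠ a) (hb0 : b ≠ w 0)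
    (ht : t ≠ a) (ht0 : t ≠ w 0) (h1 : Ex a b w) (h2 : Ex a t w) : b = t := by
  have x6 := hw.x6
  have x7a := hw.x7a
  have x7b := hw.x7b
  have x7c := hw.x7c
  have o2 := hw.o2
  have o3 := hw.o3
  clear hw
  by_contra hbt
  unfold Ex at h1 h2
  generalize w 0 = w0 at *
  generalize w 1 = w1 at *
  generalize w 2 = w2 at *
  generalize w 3 = w3 at *
  generalize w 4 = w4 at *
  generalize w 5 = w5 at *
  generalize w 6 = w6 at *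
  generalize w 7 = w7 at *
  generalize w 8 = w8 at *
  generalize w 9 = w9 at *
  generalize w 10 = w10 at *
  clear w
  rcases h1 with h1 | h1 | h1 | h1 | h1 | h1 | h1 | h1 | h1 <;>
  rcases h2 with h2 | h2 | h2 | h2 | h2 | h2 | h2 | h2 | h2 <;>
  grind

end Pool.Agent.Helper2.SeqGame
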