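import Mathlib
import Pool.Agent.Helper2.SeqGame.Def

set_option autoImplicit false

namespace Pool.Agent.Helper2.SeqGame

/-- history after `n` moves, most recent first -/
def hist {c : ℕ} (σ : List (Fin c) → Fin c) (τ : List (Fin c) → Fin c) : ℕ → List (Fin c)
  | 0 => []
  | n + 1 => (if n % 2 = 0 then σ (hist σ τ n).reverse else τ (hist σ τ n)) :: hist σ τ n

/-- the sequence produced -/
def seq {c : ℕ} (σ : List (Fin c) → Fin c) (τ : List (Fin c) → Fin c) (n : ℕ) : Fin c :=
  if n % 2 = 0 then σ (hist σ τ n).reverse else τ (hist σ τ n)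

theorem hist_succ {c : ℕ} (σ τ : List (Fin c) → Fin c) (n : ℕ) :
    hist σ τ (n + 1) = seq σ τ n :: hist σ τ n := rfl

theorem hist_eq {c : ℕ} (σ τ : List (Fin c) → Fin c) (n : ℕ) :
    (hist σ τ n).reverse = (List.range n).map (seq σ τ) := by
  induction n with
  | zero => simp [hist]
  | succ n ih =>
    rw [List.range_succ, List.map_append, ← ih, hist_succ]
    simp

/-- Player 2: repeat own last symbol if Player 1 played one of the last two symbols, otherwise
copy the previous symbol of Player 1. The list is the history with the most recent symbol first. -/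
def tau {c : ℕ} (d : Fin c) : List (Fin c) → Fin c
  | a :: b :: a' :: _ => if a = a' ∨ a = b then b else a'
  | _ => d

theorem lower {c : ℕ} (hc : c ≤ 4) : ¬ PlayerOneWins c := by
  rintro ⟨σ, hσ⟩
  obtain ⟨x, hx⟩ : ∃ x, x = seq σ (tau (σ [])) := ⟨_, rfl⟩
  have h1 : ∀ n, x (2 * n) = σ ((List.range (2 * n)).map x) := by
    intro n
    rw [hx, ← hist_eq]
    simp [seq]
  have h2 : ∀ n, x (2 * n + 3) =
      if x (2 * n + 2) = x (2 * n) ∨ x (2 * n + 2) = x (2 * n + 1) then x (2 * n + 1)
        else x (2 * n) := by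
    intro n
    have e : hist σ (tau (σ [])) (2 * n + 3) =
        x (2 * n + 2) :: x (2 * n + 1) :: x (2 * n) :: hist σ (tau (σ [])) (2 * n) := by
      rw [hist_succ, hist_succ, hist_succ, hx]
    have e2 : x (2 * n + 3) = tau (σ []) (hist σ (tau (σ [])) (2 * n + 3)) := by
      conv_lhs => rw [hx]
      unfold seq
      rw [if_neg (by omega)]
    rw [e2, e]
    rfl
  have hR := hσ x h1
  have c1 : ∀ n, x (2 * n + 2) ≠ x (2 * n) := by
    intro n h
    have h3 := h2 n
    rw [if_pos (Or.inl h)] at h3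
    apply hR
    refine ⟨2 * n, 2, 2, le_rfl, by norm_num, by norm_num, ?_⟩
    intro j hj i hi
    interval_cases j
    · simp
    · interval_cases i
      · simpa using h
      · simpa using h3
  have c2 : ∀ n, x (2 * n + 2) ≠ x (2 * n + 1) := by
    intro n h
    have h3 := h2 n
    rw [if_pos (Or.inr h)] at h3
    apply hR
    refine ⟨2 * n + 1, 3, 1, by norm_num, le_rfl, by norm_num, ?_⟩
    intro j hj i hi
    interval_cases i
    interval_cases j
    · simp
    · simpa using h
    · simpa using h3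
  have hb : ∀ n, x (2 * n + 3) = x (2 * n) := by
    intro n
    rw [h2 n, if_neg]
    rintro (h | h)
    · exact c1 n h
    · exact c2 n h
  have c3 : ∀ n, x (2 * n + 4) ≠ x (2 * n) := by
    intro n h
    have := c2 (n + 1)
    apply this
    have h3 := hb n
    rw [show 2 * (n + 1) + 2 = 2 * n + 4 by ring, show 2 * (n + 1) + 1 = 2 * n + 3 by ring, h3, h]
  have c4 : ∀ n, x (2 * n + 6) ≠ x (2 * n) := by
    intro n h
    apply hR
    refine ⟨2 * n + 2, 2, 3, le_rfl, by norm_num, by norm_num, ?_⟩
    intro j hj i hi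
    have e0 := hb n
    have e1 := hb (n + 1)
    have e2 := hb (n + 2)
    rw [show 2 * (n + 1) + 3 = 2 * n + 5 by ring, show 2 * (n + 1) = 2 * n + 2 by ring] at e1
    rw [show 2 * (n + 2) + 3 = 2 * n + 7 by ring, show 2 * (n + 2) = 2 * n + 4 by ring] at e2
    interval_cases j
    · simp
    · interval_cases i
      · simpa using e1
      · show x (2 * n + 6) = x (2 * n + 3)
        rw [h, e0]
      · show x (2 * n + 7) = x (2 * n + 4)
        exact e2
  have c5 : ∀ n, x (2 * n + 8) = x (2 * n) := by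
    intro n
    have a1 := c1 n
    have a2 := c3 n
    have a3 := c4 n
    have b1 := c1 (n + 1)
    have b2 := c3 (n + 1)
    have b3 := c4 (n + 1)
    have d1 := c1 (n + 2)
    have d2 := c3 (n + 2)
    have f1 := c1 (n + 3)
    rw [show 2 * (n + 1) + 2 = 2 * n + 4 by ring, show 2 * (n + 1) = 2 * n + 2 by ring] at b1
    rw [show 2 * (n + 1) + 4 = 2 * n + 6 by ring, show 2 * (n + 1) = 2 * n + 2 by ring] at b2
    rw [show 2 * (n + 1) + 6 = 2 * n + 8 by ring, show 2 * (n + 1) = 2 * n + 2 by ring] at b3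
    rw [show 2 * (n + 2) + 2 = 2 * n + 6 by ring, show 2 * (n + 2) = 2 * n + 4 by ring] at d1
    rw [show 2 * (n + 2) + 4 = 2 * n + 8 by ring, show 2 * (n + 2) = 2 * n + 4 by ring] at d2
    rw [show 2 * (n + 3) + 2 = 2 * n + 8 by ring, show 2 * (n + 3) = 2 * n + 6 by ring] at f1
    rw [Ne, Fin.ext_iff] at a1 a2 a3 b1 b2 b3 d1 d2 f1
    rw [Fin.ext_iff]
    have l0 := (x (2 * n)).isLt
    have l1 := (x (2 * n + 2)).isLt
    have l2 := (x (2 * n + 4)).isLt
    have l3 := (x (2 * n + 6)).isLt
    have l4 := (x (2 * n + 8)).isLt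
    omega
  apply hR
  refine ⟨2, 2, 8, le_rfl, by norm_num, by norm_num, ?_⟩
  intro j hj i hi
  interval_cases j
  · simp
  · have g1 := c5 1
    have g2 := c5 2
    have g3 := c5 3
    have g4 := c5 4
    have g0 := c5 0
    have k0 := hb 0
    have k1 := hb 1
    have k2 := hb 2
    have k3 := hb 3
    have k4 := hb 4
    have k5 := hb 5
    have k6 := hb 6
    have k7 := hb 7
    norm_num at g0 g1 g2 g3 g4 k0 k1 k2 k3 k4 k5 k6 k7
    interval_cases i <;> simp only [one_mul] <;> norm_num
    · exact g1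
    · rw [k4, g0, k0]
    · exact g2
    · rw [k5, k1, g1]
    · exact g3
    · rw [k6, k2, g2]
    · exact g4
    · rw [k7, k3, g3]

end Pool.Agent.Helper2.SeqGame
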