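import Mathlib
import Pool.Agent.Helper2.SeqGame.Local

set_option autoImplicit false

namespace Pool.Agent.Helper2.SeqGame

/-- among five letters, at least two are allowed by the rules about short periods -/
theorem two_letters {w : ℕ → ℕ} (hw : Inv w) (a : ℕ) :
    ∃ b b', b < 5 ∧ b' < 5 ∧ b ≠ b' ∧ (b ≠ a ∧ b ≠ w 0 ∧ ¬ Ex a b w) ∧
      (b' ≠ a ∧ b' ≠ w 0 ∧ ¬ Ex a b' w) := by
  obtain ⟨t, ht⟩ : ∃ t, ∀ b, b ≠ a → b ≠ w 0 → b ≠ t → ¬ Ex a b w := by
    by_cases h : ∃ t, t ≠ a ∧ t ≠ w 0 ∧ Ex a t w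
    · obtain ⟨t, h1, h2, h3⟩ := h
      exact ⟨t, fun b hb hb0 hbt hE => hbt (ex_unique hw hb hb0 h1 h2 hE h3)⟩
    · exact ⟨a, fun b hb hb0 _ hE => h ⟨b, hb, hb0, hE⟩⟩
  have hcard : 1 < ((((Finset.range 5).erase a).erase (w 0)).erase t).card := by
    have h1 := Finset.pred_card_le_card_erase (s := Finset.range 5) (a := a)
    have h2 := Finset.pred_card_le_card_erase (s := (Finset.range 5).erase a) (a := w 0)
    have h3 := Finset.pred_card_le_card_erase
      (s := ((Finset.range 5).erase a).erase (w 0)) (a := t)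
    rw [Finset.card_range] at h1
    omega
  obtain ⟨b, hb, b', hb', hbb⟩ := Finset.one_lt_card.1 hcard
  simp only [Finset.mem_erase, Finset.mem_range] at hb hb'
  exact ⟨b, b', by omega, by omega, hbb, ⟨by omega, by omega, ht b (by omega) (by omega) (by omega)⟩,
    ⟨by omega, by omega, ht b' (by omega) (by omega) (by omega)⟩⟩

/-- the invariant after a round -/
theorem inv_of {w : ℕ → ℕ} (hw : Inv w) {a b : ℕ} (hb : b ≠ a) (hb0 : b ≠ w 0)
    (hE : ¬ Ex a b w)
    (hlong : ∀ p, 8 ≤ p → ∃ i < p - 1, push b (push a w) i ≠ push b (push a w) (i + p))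
    (hpot : ∀ n, S n (push b (push a w)) < 65 / 81) : Inv (push b (push a w)) := by
  unfold Ex at hE
  simp only [not_or] at hE
  obtain ⟨e3, e4, e5, e6, e6a, e7, e7a, e7b, e7c⟩ := hE
  refine ⟨hb, ?_, ?_, ?_, ?_, ?_, ?_, ?_, hpot⟩
  · intro p hp
    by_contra hcon
    push Not at hcon
    rcases Nat.lt_or_ge p 8 with h8 | h8
    · interval_cases p
      · exact hb0 (hcon 0 (by omega))
      · exact e3 ⟨hcon 0 (by omega), hcon 1 (by omega)⟩
      · exact e4 ⟨hcon 0 (by omega), hcon 1 (by omega), hcon 2 (by omega)⟩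
      · exact e5 ⟨hcon 0 (by omega), hcon 1 (by omega), hcon 2 (by omega), hcon 3 (by omega)⟩
      · exact e6 ⟨hcon 0 (by omega), hcon 1 (by omega), hcon 2 (by omega), hcon 3 (by omega),
          hcon 4 (by omega)⟩
      · exact e7 ⟨hcon 0 (by omega), hcon 1 (by omega), hcon 2 (by omega), hcon 3 (by omega),
          hcon 4 (by omega), hcon 5 (by omega)⟩
    · obtain ⟨i, hi, hne⟩ := hlong p h8
      exact hne (hcon i hi)
  · rintro ⟨h1, h2, h3, h4⟩
    exact e6a ⟨h1, h2, h3, h4⟩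
  · rintro ⟨h1, h2, h3, h4, h5, h6⟩
    exact e7a ⟨h1, h2, h3, h4, h5, h6⟩
  · rintro ⟨h1, h2, h3, h4, h5, h6⟩
    exact e7b ⟨h1, h2, h3, h4, h5, h6⟩
  · rintro ⟨h1, h2, h3, h4⟩
    exact e7c ⟨h1, h2, h3, h4⟩
  · obtain ⟨i, hi, hne⟩ := hw.nc 2 le_rfl
    have : i = 0 := by omega
    subst this
    exact hne
  · rintro ⟨h1, h2⟩
    obtain ⟨i, hi, hne⟩ := hw.nc 3 (by omega)
    have : i = 0 ∨ i = 1 := by omega
    rcases this with rfl | rfl
    · exact hne h1
    · exact hne h2

theorem run_lt_of {w : ℕ → ℕ} (hw : Inv w) (p : ℕ) (hp : 8 ≤ p) : run p w + 2 ≤ p := by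
  obtain ⟨i, hi, hne⟩ := hw.nc p (by omega)
  by_contra hcon
  exact hne (run_spec p w i (by omega))

/-- if one of the two letters would complete a long run then the other one is fine -/
theorem other {w : ℕ → ℕ} (hw : Inv w) {a b b' : ℕ} (hb : b ≠ a) (hb0 : b ≠ w 0)
    (hE : ¬ Ex a b w) (hbb : b ≠ b') {p : ℕ} (hp : 8 ≤ p)
    (hc : ∀ i < p - 1, push b' (push a w) i = push b' (push a w) (i + p)) :
    Inv (push b (push a w)) := by
  have key : ∀ q, 8 ≤ q → ∀ c : ℕ,
      (∀ i < q - 1, push c (push a w) i = push c (push a w) (i + q)) →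
      c = push a w (q - 1) ∧ a = push a w q ∧ q ≤ run q w + 3 := by
    intro q hq c hcq
    obtain ⟨r, rfl⟩ : ∃ r, q = r + 3 := ⟨q - 3, by omega⟩
    refine ⟨?_, ?_, ?_⟩
    · have h := hcq 0 (by omega)
      rw [Nat.zero_add] at h
      exact h
    · have h := hcq 1 (by omega)
      rw [show 1 + (r + 3) = (r + 3) + 1 by ring] at h
      exact h
    · have h : r ≤ run (r + 3) w := by
        apply le_run (by omega)
        intro i hi
        have h := hcq (i + 2) (by omega)
        rw [show i + 2 + (r + 3) = (i + (r + 3)) + 2 by ring] at h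
        exact h
      omega
  obtain ⟨k1, k2, k3⟩ := key p hp b' hc
  have hrun := run_lt_of hw
  apply inv_of hw hb hb0 hE
  · intro q hq
    by_contra hcon
    push Not at hcon
    obtain ⟨l1, l2, l3⟩ := key q hq b hcon
    refine not_two hp hq ?_ k3 l3 hw.pot
    rintro rfl
    exact hbb (l1.trans k1.symm)
  · intro n
    have h1 := S_exc (a := a) (b := b) hp hb hrun (by rw [← k1]; exact hbb) k2 k3 (n + p)
      (by omega)
    have h2 := hw.pot (n + p)
    have h3 := S_mono (show n ≤ n + p by omega) (push b (push a w))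
    have h4 : (0:ℝ) ≤ (2 / 3 : ℝ) ^ (n + p) := by positivity
    linarith

/-- Player 1 can keep the invariant with a letter smaller than `5`, whatever Player 2 plays. -/
theorem step {w : ℕ → ℕ} (hw : Inv w) (a : ℕ) : ∃ b, b < 5 ∧ Inv (push b (push a w)) := by
  obtain ⟨b, b', hb5, hb5', hbb, ⟨hb, hb0, hE⟩, ⟨hb', hb0', hE'⟩⟩ := two_letters hw a
  by_cases h1 : ∃ p, 8 ≤ p ∧ ∀ i < p - 1, push b (push a w) i = push b (push a w) (i + p)
  · obtain ⟨p, hp, hc⟩ := h1
    exact ⟨b', hb5', other hw hb' hb0' hE' hbb.symm hp hc⟩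
  · by_cases h2 : ∃ p, 8 ≤ p ∧ ∀ i < p - 1, push b' (push a w) i = push b' (push a w) (i + p)
    · obtain ⟨p, hp, hc⟩ := h2
      exact ⟨b, hb5, other hw hb hb0 hE hbb hp hc⟩
    · push Not at h1 h2
      by_cases h3 : ∀ n, S n (push b (push a w)) < 65 / 81
      · exact ⟨b, hb5, inv_of hw hb hb0 hE h1 h3⟩
      · refine ⟨b', hb5', inv_of hw hb' hb0' hE' h2 ?_⟩
        intro m
        by_contra hcon
        push Not at h3 hcon
        obtain ⟨n, hn⟩ := h3
        have e1 := S_mono (show n ≤ n + m by omega) (push b (push a w))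
        have e2 := S_mono (show m ≤ n + m by omega) (push b' (push a w))
        have e3 := S_two (a := a) (b := b) (b' := b') hb hb' hbb (run_lt_of hw) (n + m)
        have e4 := hw.pot (n + m)
        have e5 : (0:ℝ) ≤ (2 / 3 : ℝ) ^ (n + m) := by positivity
        linarith

end Pool.Agent.Helper2.SeqGame
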