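import Mathlib
import Pool.Agent.Helper2.SeqGame.Def
import Pool.Agent.Helper2.SeqGame.Step

set_option autoImplicit false

namespace Pool.Agent.Helper2.SeqGame

variable {c : ℕ}

/-- the history of `x` before move `m`, most recent symbol first, followed by dummy symbols -/
def hst (x : ℕ → Fin c) (m : ℕ) : ℕ → ℕ :=
  fun i => if i < m then (x (m - 1 - i)).val else c + (i - m)

theorem hst_succ (x : ℕ → Fin c) (m : ℕ) : hst x (m + 1) = push (x m).val (hst x m) := by
  funext i
  cases i with
  | zero => simp [hst]
  | succ i =>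
    simp only [hst, push_succ]
    by_cases h : i < m
    · rw [if_pos (by omega), if_pos h]
      congr 2
      omega
    · rw [if_neg (by omega), if_neg h]
      omega

/-- the history given by a list of symbols (the oldest first) -/
def hstL (l : List (Fin c)) : ℕ → ℕ :=
  fun i => if h : i < l.length then (l[l.length - 1 - i]'(by omega)).val else c + (i - l.length)

theorem hstL_eq (x : ℕ → Fin c) (m : ℕ) : hstL ((List.range m).map x) = hst x m := by
  funext i
  unfold hstL hst
  by_cases h : i < m
  · simp [h]
  · simp [h]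

/-- the dummy history satisfies the invariant -/
theorem inv_init (c : ℕ) : Inv (fun i => c + 1 + i) := by
  refine ⟨?_, ?_, ?_, ?_, ?_, ?_, ?_, ?_, ?_⟩
  · simp
  · intro p hp
    refine ⟨0, by omega, ?_⟩
    show c + 1 + 0 ≠ c + 1 + (0 + p)
    omega
  · simp
  · simp
  · simp
  · simp
  · simp
  · simp
  · intro n
    have h : ∀ p ∈ Finset.Ico 8 (2 * n + 9), d p (fun i => c + 1 + i) = 0 := by
      intro p hp
      rw [Finset.mem_Ico] at hp
      have h0 : run p (fun i => c + 1 + i) = 0 := by
        by_contra hne
        have h1 : c + 1 + 0 = c + 1 + (0 + p) := run_spec p (fun i => c + 1 + i) 0 (by omega)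
        omega
      unfold d e
      rw [h0]
      simp
    unfold S
    rw [Finset.sum_eq_zero h]
    norm_num

/-- a sequence all of whose histories after the moves of Player 1 satisfy the invariant has no
repetition -/
theorem no_rep {x : ℕ → Fin c} (H : ∀ n, Inv (hst x (2 * n + 1))) : ¬ HasRep x := by
  rintro ⟨l, k, d, hk, hd, h3, hrep⟩
  have hget : ∀ m i, i < m → hst x m i = (x (m - 1 - i)).val := by
    intro m i hi
    simp [hst, hi]
  rcases Nat.lt_or_ge d 2 with h | h
  · have hd1 : d = 1 := by omega
    subst hd1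
    have e1 := hrep 1 (by omega) 0 (by norm_num)
    have e2 := hrep 2 (by omega) 0 (by norm_num)
    simp only [Nat.mul_one, Nat.add_zero] at e1 e2
    obtain ⟨n, hn⟩ : ∃ n, 2 * n = l + 1 ∨ 2 * n = l + 2 := ⟨(l + 2) / 2, by omega⟩
    apply (H n).r1
    rw [hget _ _ (by omega), hget _ _ (by omega)]
    rcases hn with hn | hn
    · rw [show 2 * n + 1 - 1 - 0 = l + 1 by omega, show 2 * n + 1 - 1 - 1 = l by omega, e1]
    · rw [show 2 * n + 1 - 1 - 0 = l + 2 by omega, show 2 * n + 1 - 1 - 1 = l + 1 by omega, e1, e2]
  · obtain ⟨n, hn⟩ : ∃ n, 2 * n = l + 2 * d - 1 ∨ 2 * n = l + 2 * d - 2 :=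
      ⟨(l + 2 * d - 1) / 2, by omega⟩
    obtain ⟨i, hi, hne⟩ := (H n).nc d h
    apply hne
    rw [hget _ _ (by omega), hget _ _ (by omega)]
    congr 1
    obtain ⟨j, hj⟩ : ∃ j, 2 * n + 1 - 1 - i = l + d + j := ⟨2 * n + 1 - 1 - i - l - d, by omega⟩
    have e1 := hrep 1 (by omega) j (by omega)
    rw [one_mul] at e1
    rw [hj, e1]
    congr 1
    omega

/-- Player 1 has a strategy with five or more letters. -/
theorem upper (hc : 5 ≤ c) : PlayerOneWins c := by
  classical
  refine ⟨fun l => if h : Inv (fun i => hstL l (i + 1)) then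
    ⟨(step h (hstL l 0)).choose, lt_of_lt_of_le (step h (hstL l 0)).choose_spec.1 hc⟩
    else ⟨0, by omega⟩, ?_⟩
  intro x hx
  have hpush : ∀ u : ℕ → ℕ, push (u 0) (fun i => u (i + 1)) = u := by
    intro u
    funext i
    cases i <;> rfl
  have key : ∀ n, Inv (fun i => hst x (2 * n) (i + 1)) → Inv (hst x (2 * n + 1)) := by
    intro n hn
    have h1 := hx n
    simp only [hstL_eq] at h1
    rw [dif_pos hn] at h1
    have h2 := (step hn (hst x (2 * n) 0)).choose_spec.2
    have h3 : (x (2 * n)).val = (step hn (hst x (2 * n) 0)).choose := congrArg Fin.val h1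
    rw [← h3, hpush] at h2
    rw [hst_succ]
    exact h2
  have all : ∀ n, Inv (hst x (2 * n + 1)) := by
    intro n
    induction n with
    | zero =>
      apply key
      have : (fun i => hst x (2 * 0) (i + 1)) = fun i => c + 1 + i := by
        funext i
        simp [hst]
        ring
      rw [this]
      exact inv_init c
    | succ n ih =>
      apply key
      have : (fun i => hst x (2 * (n + 1)) (i + 1)) = hst x (2 * n + 1) := by
        rw [show 2 * (n + 1) = (2 * n + 1) + 1 by ring, hst_succ]
        rfl
      rw [this]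
      exact ih
  exact no_rep all

end Pool.Agent.Helper2.SeqGame
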